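import Pool.Agent.Q120.GM.SymLaw

/-!
# Pairs with a given sum in the sieved random models of the primes

The pairs `N^2 + k + 1`, `(N + 1)^2 - k` are the pairs `c - t`, `c + t` with the centre `c = N^2 + N + 1`. Let `Q ≥ 1`,
and let the random set `A` contain the integers `n` coprime to `Q` independently with the probabilities
`(Q / φ(Q)) / log n`. For every increasing sequence of centres `c j` the least `t ≥ 1` for which `c j - t` and `c j + t`
are in `A` is almost surely at most `(1 + ε) log j log^2 (c j) / sing2 Q (c j)` for all large `j`, and this is best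
possible for every sequence of centres whose gaps are large compared with `log^3`.
-/

set_option autoImplicit false

namespace Pool.Agent.Results.MP_e94e4b_nt.EverySequenceOfCentres

open MeasureTheory Filter Pool.Agent.Q120.GM

theorem centres_mono : StrictMono (fun N : ℕ => N ^ 2 + N + 1) := by
  apply strictMono_nat_of_lt_succ
  intro N
  show N ^ 2 + N + 1 < (N + 1) ^ 2 + (N + 1) + 1
  have : (N + 1) ^ 2 = N ^ 2 + 2 * N + 1 := by ring
  omega

theorem centres_spacing : Tendsto (fun j : ℕ => ((((j + 1) ^ 2 + (j + 1) + 1 : ℕ) : ℝ) - ((j ^ 2 + j + 1 : ℕ) : ℝ)) /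
    Real.log (((j + 1) ^ 2 + (j + 1) + 1 : ℕ) : ℝ) ^ 3) atTop atTop := by
  rw [tendsto_atTop]
  intro K
  have h1 : Tendsto (fun j : ℕ => (j + 1) ^ 2 + (j + 1) + 1) atTop atTop :=
    centres_mono.tendsto_atTop.comp (tendsto_add_atTop_nat 1)
  filter_upwards [h1.eventually (ev_power K 3 (show (0 : ℝ) < 1 / 2 by norm_num)),
    h1.eventually (Pool.Agent.Q120.AD.hl.eventually_ge_atTop 1)] with j h2 h3
  rw [le_div_iff₀ (by positivity)]
  refine h2.trans ?_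
  rw [← Real.sqrt_eq_rpow]
  apply Real.sqrt_le_iff.2
  push_cast
  constructor
  · nlinarith [Nat.cast_nonneg (α := ℝ) j]
  · nlinarith [Nat.cast_nonneg (α := ℝ) j]

theorem result (Q : ℕ) (hQ : 1 ≤ Q) :
    (∃ (Ω : Type) (_ : MeasurableSpace Ω) (μ : Measure Ω) (A : Ω → Set ℕ),
      IsProbabilityMeasure μ ∧ IsModel μ (level Q) A) ∧
    ∀ (Ω : Type) [MeasurableSpace Ω] (μ : Measure Ω) [IsProbabilityMeasure μ] (A : Ω → Set ℕ),
      IsModel μ (level Q) A →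
      -- every sequence of centres
      (∀ c : ℕ → ℕ, StrictMono c → ∀ᵐ ω ∂μ, ∀ ε : ℝ, 0 < ε →
        (∀ᶠ j : ℕ in atTop, ∃ t : ℕ, 1 ≤ t ∧ t < c j ∧
          (t : ℝ) ≤ (1 + ε) * (Real.log j * Real.log (c j) ^ 2) / sing2 Q (c j) ∧ c j - t ∈ A ω ∧ c j + t ∈ A ω) ∧
        (Tendsto (fun j => ((c (j + 1) : ℝ) - c j) / Real.log (c (j + 1)) ^ 3) atTop atTop →
          ∃ᶠ j : ℕ in atTop, ∀ t : ℕ, 1 ≤ t →
            (t : ℝ) ≤ (1 - ε) * (Real.log j * Real.log (c j) ^ 2) / sing2 Q (c j) →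
            ¬ (c j - t ∈ A ω ∧ c j + t ∈ A ω))) ∧
      -- the centres of the problem
      (∀ᵐ ω ∂μ, ∀ ε : ℝ, 0 < ε →
        (∀ᶠ N : ℕ in atTop, ∃ t : ℕ, 1 ≤ t ∧ t < N ^ 2 + N + 1 ∧
          (t : ℝ) ≤ (1 + ε) * (Real.log N * Real.log ((N ^ 2 + N + 1 : ℕ) : ℝ) ^ 2) / sing2 Q (N ^ 2 + N + 1) ∧
          N ^ 2 + N + 1 - t ∈ A ω ∧ N ^ 2 + N + 1 + t ∈ A ω) ∧
        (∃ᶠ N : ℕ in atTop, ∀ t : ℕ, 1 ≤ t →
          (t : ℝ) ≤ (1 - ε) * (Real.log N * Real.log ((N ^ 2 + N + 1 : ℕ) : ℝ) ^ 2) / sing2 Q (N ^ 2 + N + 1) →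
          ¬ (N ^ 2 + N + 1 - t ∈ A ω ∧ N ^ 2 + N + 1 + t ∈ A ω))) := by
  refine ⟨⟨_, _, prodMeasure (level Q), trueSet, inferInstance, isModel _ (level_nonneg Q) (level_le_one Q)⟩, ?_⟩
  intro Ω _ μ _ A hA
  have main : ∀ c : ℕ → ℕ, StrictMono c → ∀ᵐ ω ∂μ, ∀ ε : ℝ, 0 < ε →
      (∀ᶠ j : ℕ in atTop, ∃ t : ℕ, 1 ≤ t ∧ t < c j ∧
        (t : ℝ) ≤ (1 + ε) * (Real.log j * Real.log (c j) ^ 2) / sing2 Q (c j) ∧ c j - t ∈ A ω ∧ c j + t ∈ A ω) ∧
      (Tendsto (fun j => ((c (j + 1) : ℝ) - c j) / Real.log (c (j + 1)) ^ 3) atTop atTop →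
        ∃ᶠ j : ℕ in atTop, ∀ t : ℕ, 1 ≤ t →
          (t : ℝ) ≤ (1 - ε) * (Real.log j * Real.log (c j) ^ 2) / sing2 Q (c j) →
          ¬ (c j - t ∈ A ω ∧ c j + t ∈ A ω)) := by
    intro c hc
    have hi0 : ∀ i : ℕ, (0 : ℝ) < 1 / ((i : ℝ) + 2) := fun i => by positivity
    have hi1 : ∀ i : ℕ, 1 / ((i : ℝ) + 2) < 1 := fun i => by
      rw [div_lt_one (by positivity)]
      linarith [Nat.cast_nonneg (α := ℝ) i]
    have h1 := ae_all_iff.2 (fun i : ℕ => sym_upper hA hQ hc (hi0 i) (hi1 i).le)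
    have h2 : ∀ᵐ ω ∂μ, ∀ i : ℕ, (Tendsto (fun j => ((c (j + 1) : ℝ) - c j) / Real.log (c (j + 1)) ^ 3) atTop atTop →
        ∃ᶠ j : ℕ in atTop, ∀ t : ℕ, 1 ≤ t →
          (t : ℝ) ≤ (1 - 1 / ((i : ℝ) + 2)) * (Real.log j * Real.log (c j) ^ 2) / sing2 Q (c j) →
          ¬ (c j - t ∈ A ω ∧ c j + t ∈ A ω)) := by
      rw [ae_all_iff]
      intro i
      by_cases hsp : Tendsto (fun j => ((c (j + 1) : ℝ) - c j) / Real.log (c (j + 1)) ^ 3) atTop atTop
      · filter_upwards [sym_lower hA hQ hc hsp (hi0 i) (hi1 i)] with ω hω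
        exact fun _ => hω
      · exact Eventually.of_forall (fun ω h => absurd h hsp)
    filter_upwards [h1, h2] with ω h1 h2
    intro ε hε
    obtain ⟨i, hi⟩ := exists_nat_gt (1 / ε)
    have hiε : 1 / ((i : ℝ) + 2) ≤ ε := by
      rw [div_le_iff₀ (by positivity)]
      rw [div_lt_iff₀ hε] at hi
      nlinarith
    have hnn : ∀ j : ℕ, 0 ≤ Real.log (j : ℝ) * Real.log (c j) ^ 2 := fun j => by
      have := Real.log_natCast_nonneg j
      positivity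
    constructor
    · filter_upwards [h1 i] with j hj
      obtain ⟨t, t1, t2, t3, t4, t5⟩ := hj
      refine ⟨t, t1, t2, t3.trans ?_, t4, t5⟩
      apply div_le_div_of_nonneg_right _ (sing2_pos hQ (c j)).le
      exact mul_le_mul_of_nonneg_right (by linarith) (hnn j)
    · intro hsp
      refine (h2 i hsp).mono (fun j hj t ht1 ht2 => hj t ht1 (ht2.trans ?_))
      apply div_le_div_of_nonneg_right _ (sing2_pos hQ (c j)).le
      exact mul_le_mul_of_nonneg_right (by linarith) (hnn j)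
  refine ⟨main, ?_⟩
  filter_upwards [main (fun N => N ^ 2 + N + 1) centres_mono] with ω hω
  intro ε hε
  obtain ⟨h1, h2⟩ := hω ε hε
  exact ⟨h1, h2 centres_spacing⟩

end Pool.Agent.Results.MP_e94e4b_nt.EverySequenceOfCentres
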