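import Pool.Agent.Q197.WN.SymC

/-!
# Symmetric prime pairs between consecutive squares: the exact entropy price of the failures, for all random sets
-/

set_option autoImplicit false

namespace Pool.Agent.Results.MP_e94e4b_nt.FailureBudget

open Finset Filter Pool.Agent.Q197.WN Pool.Agent.Q120.CL Pool.Agent.Q120.ET
open scoped Topology

/-- The integers strictly between `n ^ 2` and `(n + 1) ^ 2`. -/
def W (n : ℕ) : Finset ℕ := Ioo (n ^ 2) ((n + 1) ^ 2)

open Classical in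
/-- The number of the pairs `{n ^ 2 + k + 1, (n + 1) ^ 2 - k}` in `S`, `n ≤ k < 2 n`. -/
noncomputable def Q (n : ℕ) (S : Set ℕ) : ℕ :=
  ((Ico n (2 * n)).filter (fun k => n ^ 2 + k + 1 ∈ S ∧ (n + 1) ^ 2 - k ∈ S)).card

/-- The number of the classes of `k` modulo `p` for which `p` divides one element of the pair. -/
def cls (n p : ℕ) : ℕ := if p = 2 ∨ p ∣ n ^ 2 + n + 1 then 1 else 2

/-- The singular series of the pairs at the primes below `z`. -/
noncomputable def Sing (z n : ℕ) : ℝ := ∏ p ∈ (range z).filter Nat.Prime, (1 - (cls n p : ℝ) / p) / (1 - 1 / (p : ℝ)) ^ 2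

/-- The expected number of pairs. -/
noncomputable def E (z : ℕ → ℕ) (n : ℕ) : ℝ := Sing (z (Nat.log 2 n)) n * (n / (2 * Real.log n) ^ 2)

/-- The twin prime constant (with its factor at `2`), at the primes below `z`. -/
noncomputable def T (z : ℕ) : ℝ := ∏ p ∈ (range z).filter Nat.Prime, (if p = 2 then 2 else 1 - 1 / ((p : ℝ) - 1) ^ 2)

/-- The price of one failure. -/
noncomputable def u (z : ℕ → ℕ) (k : ℕ) : ℝ := T (z k) * (2 ^ k / (2 * Real.log 2 * k) ^ 2)

theorem Q_zero (n : ℕ) (S : Set ℕ) : Q n S = 0 ↔ ∀ k ∈ Ico n (2 * n), ¬ (n ^ 2 + k + 1 ∈ S ∧ (n + 1) ^ 2 - k ∈ S) := by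
  classical
  unfold Q
  rw [card_eq_zero, filter_eq_empty_iff]

/-- The price of the failures and the entropy budget. -/
theorem result :
    (∀ n : ℕ, 2 ≤ n → (Q n {p | p.Prime} = 0 ↔
      ∀ k : ℕ, 2 ≤ k → k ≤ 2 * n → ¬ ((n ^ 2 + k + 1).Prime ∧ ((n + 1) ^ 2 - k).Prime))) ∧
    ∀ z : ℕ → ℕ, (∀ η : ℝ, 0 < η → ∀ᶠ k : ℕ in atTop, (z k : ℝ) ≤ η * k) →
    (Low (pr (fun j => z (j / 2))) W Q (E z) ∧ High (pr (fun j => z (j / 2))) W Q (E z)) ∧
    (∀ δ ε : ℝ, 0 < δ → 0 < ε → ∀ᶠ k : ℕ in atTop, ∀ M : ℕ, 1 ≤ M → (M : ℝ) ≤ 2 ^ ((1 - δ) * (k : ℝ)) →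
      (1 - ε) * (M * u z k) ≤ cost (E z) (block k) M ∧ cost (E z) (block k) M ≤ (1 + ε) * (M * u z k)) ∧
    (∀ δ : ℝ, 0 < δ → ∀ (d : ℕ → ℝ) (M : ℕ → ℕ), (∀ k, 0 ≤ d k) → (∀ k, 1 ≤ M k ∧ (M k : ℝ) ≤ 2 ^ ((1 - δ) * (k : ℝ))) →
      (Summable (fun k : ℕ => d k * k ^ 2 / (2 ^ k * M k)) ↔
        ∀ ε : ℝ, 0 < ε → Few (pr (fun j => z (j / 2))) W d M (fun n S => ε * E z n ≤ |(Q n S : ℝ) - E z n|)) ∧
      (∀ j : ℕ, Summable (fun k : ℕ => d k * k ^ 2 / (2 ^ k * M k)) ↔
        Few (pr (fun j => z (j / 2))) W d M (fun n S => Q n S ≤ j)) ∧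
      (¬ Summable (fun k : ℕ => d k * k ^ 2 / (2 ^ k * M k)) →
        Often (pr (fun j => z (j / 2))) W d M (fun n S => Q n S = 0))) := by
  classical
  constructor
  · intro n hn
    have e : (n + 1) ^ 2 = n ^ 2 + 2 * n + 1 := by ring
    rw [Q_zero]
    constructor
    · intro h k hk1 hk2 hp
      rcases Nat.lt_or_ge k n with hlt | hge
      · refine h (2 * n - k) (mem_Ico.2 ⟨by omega, by omega⟩) ⟨?_, ?_⟩
        · show (n ^ 2 + (2 * n - k) + 1).Prime
          have : n ^ 2 + (2 * n - k) + 1 = (n + 1) ^ 2 - k := by omega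
          rw [this]
          exact hp.2
        · show ((n + 1) ^ 2 - (2 * n - k)).Prime
          have : (n + 1) ^ 2 - (2 * n - k) = n ^ 2 + k + 1 := by omega
          rw [this]
          exact hp.1
      · rcases Nat.lt_or_ge k (2 * n) with h2 | h2
        · exact h k (mem_Ico.2 ⟨hge, h2⟩) hp
        · have h3 : n ^ 2 + k + 1 = (n + 1) * (n + 1) := by
            have : (n + 1) * (n + 1) = (n + 1) ^ 2 := by ring
            omega
          have h4 := hp.1
          rw [h3] at h4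
          exact Nat.not_prime_mul (by omega) (by omega) h4
    · intro h k hk hp
      rw [mem_Ico] at hk
      exact h k (by omega) (by omega) hp
  intro z hs
  have h1 := sym_all (z := z) hs
  have eE : sE z = E z := rfl
  have eQ : (fun n : ℕ => grp (Ico n (2 * n)) (sf n)) = Q := by
    funext n S
    unfold grp Q sf
    congr 1
    refine filter_congr (fun k _ => ?_)
    rw [forall_mem_insert]
    refine and_congr_right (fun _ => ?_)
    constructor
    · intro h
      exact h _ (mem_singleton_self _)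
    · intro h x hx
      rw [mem_singleton] at hx
      rw [hx]
      exact h
  rw [eE, eQ] at h1
  have hcost : ∀ δ ε : ℝ, 0 < δ → 0 < ε → ∀ᶠ k : ℕ in atTop, ∀ M : ℕ, 1 ≤ M → (M : ℝ) ≤ 2 ^ ((1 - δ) * (k : ℝ)) →
      (1 - ε) * (M * u z k) ≤ cost (E z) (block k) M ∧ cost (E z) (block k) M ≤ (1 + ε) * (M * u z k) :=
    fun δ ε hδ hε => sym_cost hs hε hδ
  refine ⟨⟨h1.2.1, h1.2.2⟩, hcost, fun δ hδ d M hd hM => ?_⟩
  have hM2 : ∀ k, 1 ≤ M k ∧ M k ≤ 2 ^ k := by
    intro k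
    refine ⟨(hM k).1, ?_⟩
    have h2 : (M k : ℝ) ≤ 2 ^ k := by
      refine (hM k).2.trans ?_
      rw [← Real.rpow_natCast 2 k]
      apply Real.rpow_le_rpow_of_exponent_le (by norm_num)
      have : (0 : ℝ) ≤ k := Nat.cast_nonneg k
      nlinarith
    exact_mod_cast h2
  have hl2 : 0 < Real.log 2 := Real.log_pos (by norm_num)
  obtain ⟨a, ha⟩ : ∃ a : ℝ, a = 1 / (2 * Real.log 2) ^ 2 := ⟨_, rfl⟩
  have ha0 : 0 < a := by rw [ha]; positivity
  have h3 : Summable (fun k : ℕ => d k * k ^ 2 / (2 ^ k * M k)) ↔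
      Summable (fun k : ℕ => d k / cost (E z) (block k) (M k)) := by
    have h4 := summable_iff_of hd (U := fun k => cost (E z) (block k) (M k))
      (U' := fun k => 2 ^ k * M k / k ^ 2) (c := 1 / 2 * a) (C := 3 * a) (by positivity) (by positivity) (by
        filter_upwards [hcost δ (1 / 2) hδ (by norm_num), eventually_ge_atTop 1] with k hk hk2
        obtain ⟨h5, h6⟩ := hk (M k) (hM k).1 (hM k).2
        have hk0 : (0 : ℝ) < k := by exact_mod_cast hk2
        have hM0 : (1 : ℝ) ≤ M k := by exact_mod_cast (hM k).1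
        have hT := tw_bounds (z k)
        have eT : T (z k) = tw (z k) := rfl
        have e : (M k : ℝ) * u z k = T (z k) * (a * (2 ^ k * M k / k ^ 2)) := by
          unfold u
          rw [ha]
          field_simp
        rw [e, eT] at h5 h6
        have hY : 0 < a * (2 ^ k * M k / (k : ℝ) ^ 2) := by positivity
        have h7 : a * (2 ^ k * M k / (k : ℝ) ^ 2) ≤ tw (z k) * (a * (2 ^ k * M k / (k : ℝ) ^ 2)) := by nlinarith
        have h8 : tw (z k) * (a * (2 ^ k * M k / (k : ℝ) ^ 2)) ≤ 2 * (a * (2 ^ k * M k / (k : ℝ) ^ 2)) :=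
          mul_le_mul_of_nonneg_right hT.2 hY.le
        refine ⟨by positivity, by linarith, by linarith⟩)
    rw [h4]
    have e : (fun k : ℕ => d k / (2 ^ k * (M k : ℝ) / (k : ℝ) ^ 2)) =
        (fun k : ℕ => d k * k ^ 2 / (2 ^ k * M k)) := by
      funext k
      rw [div_div_eq_mul_div]
    rw [e]
  rw [h3]
  exact h1.1 d M hd hM2

end Pool.Agent.Results.MP_e94e4b_nt.FailureBudget
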