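import Pool.Agent.Q117.SI.All1
import Pool.Agent.Q117.SI.Sym
import Pool.Agent.Q117.LF.Oms

/-!
# MP_e94e4b_nt: symmetric almost prime pairs between consecutive squares, isolated at the natural scale
-/

set_option autoImplicit false

namespace Pool.Agent.Results.MP_e94e4b_nt.IsolatedSymmetricPairs

open Finset
open Pool.Agent.Q117.LF (Ro)

/-- the number of the classes `k` modulo `p` with `p ∣ (N ^ 2 + k + 1) ((N + 1) ^ 2 - k)` -/
noncomputable def omega (N p : ℕ) : ℕ := ((range p).filter (fun k : ℕ => (p : ℤ) ∣ (N ^ 2 + k + 1) * ((N + 1) ^ 2 - k))).card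

/-- the product of `1 - omega N p / p` over the primes `p ≤ N` -/
noncomputable def dens (N : ℕ) : ℝ := ∏ p ∈ (Icc 1 N).filter Nat.Prime, (1 - (omega N p : ℝ) / p)

open Classical in
/-- the `2 ≤ k ≤ 2 N` for which `N ^ 2 + k + 1` is a product of at most three primes, all `≥ w`, `(N + 1) ^ 2 - k` has no prime factor `≤ z`, every other integer at distance `≤ L` from one of these two numbers has a prime factor `≤ z`, and for no other integer `k'` at distance `≤ D` from `k` both `N ^ 2 + k' + 1` and `(N + 1) ^ 2 - k'` are without prime factors `≤ z` -/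
noncomputable def Pairs (N : ℕ) (w z L D : ℝ) : Finset ℕ :=
  (Icc 2 (2 * N)).filter (fun k : ℕ => (N ^ 2 + k + 1).primeFactorsList.length ≤ 3 ∧ (∀ p : ℕ, p.Prime → p ∣ N ^ 2 + k + 1 → w ≤ p) ∧ Ro z ((N + 1) ^ 2 - k) ∧
    (∀ s : ℤ, s ≠ 0 → |(s : ℝ)| ≤ L → ¬ Ro z (N ^ 2 + k + 1 + s) ∧ ¬ Ro z ((N + 1) ^ 2 - k + s)) ∧
    ∀ k' : ℤ, k' ≠ k → |(k' : ℝ) - k| ≤ D → ¬ (Ro z (N ^ 2 + k' + 1) ∧ Ro z ((N + 1) ^ 2 - k')))

theorem result : ∃ t : ℕ, 1 ≤ t ∧ ∃ c : ℝ, 0 < c ∧ ∃ ν : ℝ, 0 < ν ∧ ∃ N₀ : ℕ, ∀ N : ℕ, N₀ ≤ N →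
    0 < dens N ∧ c * (N * dens N) ≤ ((Pairs N ((N : ℝ) ^ (3 / 20 : ℝ)) ((N : ℝ) ^ (1 / (t : ℝ))) (ν * Real.log N) (ν / dens N)).card : ℝ) :=
  Pool.Agent.Q117.SI.sym Pool.Agent.Q117.SI.nsiC Pool.Agent.Q117.LF.oms

end Pool.Agent.Results.MP_e94e4b_nt.IsolatedSymmetricPairs
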