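import Pool.Agent.Q253.Thin.IntFamily

/-!
# Symmetric pairs of almost primes between `N ^ 2` and `(N + 1) ^ 2`

For EVERY large `N`: there is the expected number of `k`, `2 ≤ k ≤ 2 N`, such that `N ^ 2 + k + 1` and `(N + 1) ^ 2 - k` have no
prime factor `≤ N ^ (1/t)`; every dense set of these `k` contains arithmetic progressions with differences
`≤ log ^ D N`; and there is one set `S` of integers with only `O(log ^ 4 x)` elements up to `x` which contains such `k`
for every `N`, and which represents the pairs of primes faithfully: in the block `(2 ^ i, 2 ^ (i + 1)]`,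
`i = ⌊log N / log 2⌋`, the proportion of the `k ∈ S` with both numbers prime is the proportion for all `k`, up to an
error which is small compared with the expected order.

Libraries: `Y151.HS.FLC` (fundamental lemma in residue classes), `Y843.HS.Top` (Szemerédi's theorem relative to
arbitrary sifted sets), starting files.
-/

set_option autoImplicit false

namespace Pool.Agent.Results.MP_e94e4b_nt.SymmetricAlmostPrimes

open Finset Filter
open Pool.Agent.Q253.Thin
open Pool.Agent.Y843.HS (Pr VV Pr_mem Pr_prime)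

/-- the classes of `k` modulo `q` for which `q` divides `N ^ 2 + k + 1` or `(N + 1) ^ 2 - k` -/
def Z (N q : ℕ) : Finset ℕ := {((-((N : ℤ) ^ 2 + 1)) % q).toNat, (N + 1) ^ 2 % q}

/-- the density of the `k` outside of these classes for all primes `q ≤ X` -/
noncomputable def dens (N X : ℕ) : ℝ := ∏ q ∈ (Icc 1 X).filter Nat.Prime, (1 - ((Z N q).card : ℝ) / q)

open Classical in
/-- the `k` in `(A, B]` such that neither `N ^ 2 + k + 1` nor `(N + 1) ^ 2 - k` has a prime factor `≤ y` -/
noncomputable def Free (N : ℕ) (y : ℝ) (A B : ℕ) : Finset ℕ :=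
  (Ioc A B).filter (fun k => ∀ q : ℕ, q.Prime → (q ∣ N ^ 2 + k + 1 ∨ q ∣ (N + 1) ^ 2 - k) → y < q)

/-- the `k` in `(A, B]` such that `N ^ 2 + k + 1` and `(N + 1) ^ 2 - k` are primes -/
def Both (N A B : ℕ) : Finset ℕ :=
  (Ioc A B).filter (fun k => (N ^ 2 + k + 1).Prime ∧ ((N + 1) ^ 2 - k).Prime)

lemma sysZ (N : ℕ) : SysZ 2 (Z N) where
  card p _ := card_le_two
  loc p hp := by
    rcases hp.two_le.eq_or_lt with h | h
    · rw [← h]
      have : Z N 2 ⊆ {(N + 1) ^ 2 % 2} := by
        intro x hx
        unfold Z at hx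
        rw [mem_insert, mem_singleton] at hx
        rw [mem_singleton]
        rcases hx with rfl | rfl
        · have h1 : ((N : ℤ) ^ 2 + 1 + ((N : ℤ) + 1) ^ 2) % 2 = 0 := by
            have h2 : (N : ℤ) ^ 2 + 1 + ((N : ℤ) + 1) ^ 2 = 2 * ((N : ℤ) ^ 2 + N + 1) := by ring
            rw [h2]
            omega
          have h3 : (((N + 1) ^ 2 % 2 : ℕ) : ℤ) = ((N : ℤ) + 1) ^ 2 % 2 := by push_cast; rfl
          have h4 : (-((N : ℤ) ^ 2 + 1)) % 2 = ((N : ℤ) + 1) ^ 2 % 2 := by omega
          have h5 : ((2 : ℕ) : ℤ) = 2 := rfl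
          rw [h5, h4, ← h3, Int.toNat_natCast]
        · rfl
      have := card_le_card this
      rw [card_singleton] at this
      omega
    · exact lt_of_le_of_lt card_le_two h
  lt p hp c hc := by
    unfold Z at hc
    rw [mem_insert, mem_singleton] at hc
    rcases hc with rfl | rfl
    · have h0 : (0 : ℤ) < p := by exact_mod_cast hp.pos
      have h1 := Int.emod_lt_of_pos (-((N : ℤ) ^ 2 + 1)) h0
      have h2 := Int.emod_nonneg (-((N : ℤ) ^ 2 + 1)) h0.ne'
      omega
    · exact Nat.mod_lt _ hp.pos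

lemma mem_Z {N q k : ℕ} (hq : q.Prime) (hk : k ≤ (N + 1) ^ 2) :
    k % q ∈ Z N q ↔ (q ∣ N ^ 2 + k + 1 ∨ q ∣ (N + 1) ^ 2 - k) := by
  unfold Z
  rw [mem_insert, mem_singleton]
  have h0 : (0 : ℤ) < q := by exact_mod_cast hq.pos
  apply or_congr
  · have h2 := Int.emod_nonneg (-((N : ℤ) ^ 2 + 1)) h0.ne'
    have h1 : k % q = ((-((N : ℤ) ^ 2 + 1)) % q).toNat ↔ ((k : ℤ) % q) = (-((N : ℤ) ^ 2 + 1)) % q := by
      constructor
      · intro h
        have h3 : ((k % q : ℕ) : ℤ) = (((-((N : ℤ) ^ 2 + 1)) % q).toNat : ℤ) := by rw [h]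
        rw [Int.toNat_of_nonneg h2] at h3
        push_cast at h3
        exact h3
      · intro h
        rw [← h]
        have : ((k : ℤ) % q) = ((k % q : ℕ) : ℤ) := by push_cast; rfl
        rw [this, Int.toNat_natCast]
    rw [h1]
    have h3 : ((k : ℤ) % q) = (-((N : ℤ) ^ 2 + 1)) % q ↔ (q : ℤ) ∣ (-((N : ℤ) ^ 2 + 1)) - k :=
      Int.modEq_iff_dvd
    rw [h3]
    have h4 : (-((N : ℤ) ^ 2 + 1)) - k = -((N ^ 2 + k + 1 : ℕ) : ℤ) := by
      push_cast
      ring
    rw [h4, dvd_neg]
    exact Int.natCast_dvd_natCast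
  · exact Nat.modEq_iff_dvd' hk

lemma free_eq {N t X A B : ℕ} (hB : B ≤ (N + 1) ^ 2) : IS t X A B (Z N) = Free N ((X : ℝ) ^ (1 / (t : ℝ))) A B := by
  classical
  unfold IS Free
  apply filter_congr
  intro k hk
  rw [mem_Ioc] at hk
  constructor
  · intro h q hq hd
    by_contra hcon
    push Not at hcon
    exact h q hq hcon ((mem_Z hq (by omega)).2 hd)
  · intro h q hq hqX hmem
    have := h q hq ((mem_Z hq (by omega)).1 hmem)
    linarith

lemma dens_eq (N X : ℕ) : VV (Z N) 0 X = dens N X := by
  unfold VV dens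
  apply prod_congr _ (fun _ _ => rfl)
  ext p
  rw [Pr_mem, mem_filter, mem_Icc]
  constructor
  · rintro ⟨h1, h2⟩
    exact ⟨⟨by omega, h1.2⟩, h2⟩
  · rintro ⟨h1, h2⟩
    exact ⟨⟨by omega, h1.2⟩, h2⟩

/-- **Symmetric pairs of almost primes between consecutive squares.** There are `t ≥ 1` and `c > 0` such that:

(1) for all large `N` at least `c N / log ^ 2 N` integers `k`, `2 ≤ k ≤ 2 N`, are such that neither `N ^ 2 + k + 1` nor
`(N + 1) ^ 2 - k` has a prime factor `≤ (2 N - 1) ^ (1/t)`;

(2) for all `l` and `δ > 0` there is `D` such that for all large `N` every set of these `k` of relative density `δ`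
contains an arithmetic progression of length `l` with difference at most `log ^ D (2 N)`;

(3) for all `ε > 0` there are `C > 0` and a set `S` of positive integers with at most `C log ^ 4 x` elements up to `x`
such that for all large `N` the set `T` of the elements of `S` in `(2 ^ i, 2 ^ (i + 1)]`, `i = ⌊log N / log 2⌋`, has the
following properties: at least `log N` of the `k ∈ T` (all of which satisfy `2 ≤ k ≤ 2 N`) are such that neither
`N ^ 2 + k + 1` nor `(N + 1) ^ 2 - k` has a prime factor `≤ 2 ^ (i / t)`; and the number of the `k ∈ T` for which both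
numbers are primes differs by at most `ε |T| dens N (2 ^ i)` from `|T|` times the proportion of the `k` in
`(2 ^ i, 2 ^ (i + 1)]` with this property, where `dens N (2 ^ i)` has at least the order `1 / log ^ 2 N`. -/
theorem result : ∃ (t : ℕ) (c : ℝ), 1 ≤ t ∧ 0 < c ∧
    (∃ N₀ : ℕ, ∀ N : ℕ, N₀ ≤ N →
      c * (N / Real.log N ^ 2) ≤ ((Free N (((2 * N - 1 : ℕ) : ℝ) ^ (1 / (t : ℝ))) 1 (2 * N)).card : ℝ)) ∧
    (∀ (l : ℕ) (δ : ℝ), 0 < δ → ∃ D N₀ : ℕ, ∀ N : ℕ, N₀ ≤ N → ∀ S : Finset ℕ,
      S ⊆ Free N (((2 * N - 1 : ℕ) : ℝ) ^ (1 / (t : ℝ))) 1 (2 * N) →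
      δ * ((Free N (((2 * N - 1 : ℕ) : ℝ) ^ (1 / (t : ℝ))) 1 (2 * N)).card : ℝ) ≤ S.card →
        ∃ a d : ℕ, 1 ≤ d ∧ (d : ℝ) ≤ Real.log ((2 * N : ℕ) : ℝ) ^ D ∧ ∀ j < l, a + j * d ∈ S) ∧
    ∀ ε : ℝ, 0 < ε → ∃ (C : ℝ) (S : Set ℕ), 0 < C ∧
      (∀ x : ℕ, 2 ≤ x → ∃ U : Finset ℕ, (∀ k ∈ S, k ≤ x → k ∈ U) ∧ (U.card : ℝ) ≤ C * Real.log x ^ 4) ∧
      ∃ N₀ : ℕ, ∀ N : ℕ, N₀ ≤ N → ∃ T : Finset ℕ,
        (∀ k : ℕ, k ∈ T ↔ k ∈ S ∧ 2 ^ Nat.log 2 N < k ∧ k ≤ 2 ^ (Nat.log 2 N + 1)) ∧
        Real.log N ≤ ((T ∩ Free N (((2 ^ Nat.log 2 N : ℕ) : ℝ) ^ (1 / (t : ℝ))) 1 (2 * N)).card : ℝ) ∧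
        c / Real.log N ^ 2 ≤ dens N (2 ^ Nat.log 2 N) ∧
        |((T ∩ Both N 1 (2 * N)).card : ℝ) -
          T.card * ((Both N (2 ^ Nat.log 2 N) (2 ^ (Nat.log 2 N + 1))).card / 2 ^ Nat.log 2 N)| ≤
            ε * (T.card * dens N (2 ^ Nat.log 2 N)) := by
  classical
  obtain ⟨t, ht, c0, hc0, ⟨X₁, h1⟩, hrel⟩ := int_rel 2 (by norm_num)
  obtain ⟨cV, hcV, hVlow⟩ := VZ_low 2 (by norm_num)
  obtain ⟨Cu, hCu, hup⟩ := int_upper 2 t (by norm_num) ht
  obtain ⟨X₂, hX₂⟩ := hup 1 one_pos
  have ht0 : (0 : ℝ) < t := by exact_mod_cast ht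
  refine ⟨t, min (c0 * cV / 4) cV, ht, by positivity, ⟨max X₁ 4, ?_⟩, ?_, ?_⟩
  · intro N hN
    have n1 : X₁ ≤ N := (le_max_left _ _).trans hN
    have n2 : 4 ≤ N := (le_max_right _ _).trans hN
    have hNr : (4 : ℝ) ≤ N := by exact_mod_cast n2
    have hN0 : (0 : ℝ) < N := by linarith
    have hlN : 0 < Real.log N := Real.log_pos (by linarith)
    have h2 := h1 (2 * N - 1) (by omega) (Z N) (sysZ N) 1
    rw [show 1 + (2 * N - 1) = 2 * N by omega, free_eq (by nlinarith)] at h2
    refine le_trans ?_ h2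
    have h3 := hVlow (2 * N - 1) (by omega) (Z N) (sysZ N)
    have hXr : ((2 * N - 1 : ℕ) : ℝ) = 2 * N - 1 := by
      rw [Nat.cast_sub (by omega)]
      push_cast
      ring
    have hl : Real.log ((2 * N - 1 : ℕ) : ℝ) ≤ 2 * Real.log N := by
      have h4 : ((2 * N - 1 : ℕ) : ℝ) ≤ (N : ℝ) ^ 2 := by
        rw [hXr]
        nlinarith
      have h5 := Real.log_le_log (by rw [hXr]; linarith) h4
      rwa [Real.log_pow, Nat.cast_ofNat] at h5
    have hl0 : 0 < Real.log ((2 * N - 1 : ℕ) : ℝ) := Real.log_pos (by rw [hXr]; linarith)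
    have h4 : cV / (2 * Real.log N) ^ 2 ≤ VV (Z N) 0 (2 * N - 1) := by
      refine le_trans ?_ h3
      apply div_le_div_of_nonneg_left hcV.le (by positivity)
      exact pow_le_pow_left₀ hl0.le hl 2
    have h5 : (N : ℝ) * (cV / (2 * Real.log N) ^ 2) ≤ ((2 * N - 1 : ℕ) : ℝ) * VV (Z N) 0 (2 * N - 1) := by
      apply mul_le_mul _ h4 (by positivity) (by positivity)
      rw [hXr]
      linarith
    have h6 := mul_le_mul_of_nonneg_left h5 hc0.le
    refine le_trans ?_ h6
    have h7 : c0 * (N * (cV / (2 * Real.log N) ^ 2)) = c0 * cV / 4 * (N / Real.log N ^ 2) := by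
      field_simp
      ring
    rw [h7]
    exact mul_le_mul_of_nonneg_right (min_le_left _ _) (by positivity)
  · intro l δ hδ
    obtain ⟨D, X₃, h3⟩ := hrel l δ hδ
    refine ⟨D, max X₃ 4, ?_⟩
    intro N hN S hS hSc
    have n1 : X₃ ≤ N := (le_max_left _ _).trans hN
    have n2 : 4 ≤ N := (le_max_right _ _).trans hN
    have hf := free_eq (N := N) (t := t) (X := 2 * N - 1) (A := 1) (B := 2 * N) (by nlinarith)
    rw [← hf, show 2 * N = 1 + (2 * N - 1) by omega] at hS hSc
    have e : 1 + (2 * N - 1) - 1 = 2 * N - 1 := by omega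
    rw [e] at hS hSc
    obtain ⟨a, d, a1, a2, a3⟩ := h3 (2 * N - 1) (by omega) (Z N) (sysZ N) 1 S hS hSc
    refine ⟨a, d, a1, a2.trans ?_, a3⟩
    apply pow_le_pow_left₀
    · apply Real.log_nonneg
      exact_mod_cast (by omega : 1 ≤ 2 * N - 1)
    · apply Real.log_le_log
      · exact_mod_cast (by omega : 0 < 2 * N - 1)
      · exact_mod_cast (by omega : 2 * N - 1 ≤ 2 * N)
  · intro ε hε
    set ε1 : ℝ := min (min (c0 / 2) (1 / 2)) (ε / (2 * (1 + Cu))) with hε1
    have hε10 : 0 < ε1 := by positivity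
    have e1 : ε1 ≤ c0 / 2 := (min_le_left _ _).trans (min_le_left _ _)
    have e2 : ε1 ≤ 1 / 2 := (min_le_left _ _).trans (min_le_right _ _)
    have e3 : ε1 * (2 * (1 + Cu)) ≤ ε := by
      have := min_le_right (min (c0 / 2) (1 / 2)) (ε / (2 * (1 + Cu)))
      rwa [← hε1, le_div_iff₀ (by positivity)] at this
    obtain ⟨K0, hK0, X₃, h3⟩ := familyZ 2 t (by norm_num) ht 2 ε1 hε10
    set K : ℝ := max K0 (4 / (c0 * cV)) with hK
    have hK0' : 0 < K := lt_of_lt_of_le hK0 (le_max_left _ _)
    have hKc : 4 ≤ K * (c0 * cV) := by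
      have : 4 / (c0 * cV) ≤ K := le_max_right _ _
      rwa [div_le_iff₀ (by positivity)] at this
    obtain ⟨X₄, h4⟩ := eventually_atTop.1 (tendsto_natCast_atTop_atTop (R := ℝ) |>.eventually
      ((isLittleO_log_rpow_rpow_atTop (s := 1) ((3 : ℕ) : ℝ) (by norm_num)).def (show (0 : ℝ) < 1 / K by positivity)))
    set M : ℕ := max (max X₁ X₂) (max (max X₃ X₄) 4) with hM
    have step : ∀ i : ℕ, ∃ S : Finset ℕ, S ⊆ Ioc (2 ^ i) (2 ^ (i + 1)) ∧ (S.card : ℝ) ≤ 2 * K * i ^ 3 ∧
        (M ≤ i → ∀ N : ℕ, 2 ^ i ≤ N → N < 2 ^ (i + 1) →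
          Real.log N ≤ ((S ∩ IS t (2 ^ i) (2 ^ i) (2 ^ (i + 1)) (Z N)).card : ℝ) ∧
          |((S ∩ Both N (2 ^ i) (2 ^ (i + 1))).card : ℝ) - S.card * ((Both N (2 ^ i) (2 ^ (i + 1))).card / 2 ^ i)| ≤
            ε * (S.card * dens N (2 ^ i))) := by
      intro i
      by_cases hi : M ≤ i
      swap
      · refine ⟨∅, by simp, ?_, fun h => absurd h hi⟩
        rw [card_empty, Nat.cast_zero]
        positivity
      set X : ℕ := 2 ^ i with hX
      have hMX : M ≤ X := hi.trans Nat.lt_two_pow_self.le
      have x1 : X₁ ≤ X := ((le_max_left _ _).trans (le_max_left _ _)).trans hMX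
      have x2 : X₂ ≤ X := ((le_max_right _ _).trans (le_max_left _ _)).trans hMX
      have x3 : X₃ ≤ X := ((le_max_left _ _).trans ((le_max_left _ _).trans (le_max_right _ _))).trans hMX
      have x4 : X₄ ≤ X := ((le_max_right _ _).trans ((le_max_left _ _).trans (le_max_right _ _))).trans hMX
      have x5 : 4 ≤ X := ((le_max_right _ _).trans (le_max_right _ _)).trans hMX
      have hXX : X + X = 2 ^ (i + 1) := by rw [pow_succ, ← hX]; ring
      have hXr : (4 : ℝ) ≤ X := by exact_mod_cast x5
      have hX0 : (0 : ℝ) < X := by linarith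
      have hlX : 0 < Real.log X := Real.log_pos (by linarith)
      have hlXi : Real.log X ≤ i := by
        rw [hX]
        push_cast
        rw [Real.log_pow]
        have := Real.log_two_lt_d9
        have h0 : (0 : ℝ) ≤ i := Nat.cast_nonneg i
        nlinarith
      set m : ℝ := K * Real.log X ^ 3 with hm
      have hm0 : 0 < m := by positivity
      have hmX : m ≤ X := by
        have g := h4 X x4
        rw [Real.rpow_natCast, Real.rpow_one, Real.norm_of_nonneg (by positivity), Real.norm_of_nonneg hX0.le,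
          div_mul_eq_mul_div, one_mul, le_div_iff₀ hK0'] at g
        rw [hm]
        linarith
      have hroot : (X : ℝ) ^ (1 / (t : ℝ)) ≤ X := by
        have h2 := Real.rpow_le_rpow_of_exponent_le (show (1 : ℝ) ≤ X by linarith)
          (show 1 / (t : ℝ) ≤ 1 by
            rw [div_le_one ht0]
            exact_mod_cast ht)
        rwa [Real.rpow_one] at h2
      set I : Finset (ℕ × Bool) := (Ico X (2 ^ (i + 1))) ×ˢ univ with hI
      set R : ℕ × Bool → Finset ℕ := fun τ => if τ.2 then IS t X X (X + X) (Z τ.1) else Both τ.1 X (2 ^ (i + 1)) with hR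
      have hBoth : ∀ N : ℕ, X ≤ N → N < 2 ^ (i + 1) → Both N X (2 ^ (i + 1)) ⊆ IS t X X (X + X) (Z N) := by
        intro N hN1 hN2 k hk
        unfold Both at hk
        rw [mem_filter, mem_Ioc] at hk
        unfold IS
        rw [mem_filter, mem_Ioc, hXX]
        refine ⟨hk.1, ?_⟩
        intro q hq hqX hmem
        have hk2 : k ≤ (N + 1) ^ 2 := by nlinarith
        have hqX2 : q ≤ X := by exact_mod_cast hqX.trans hroot
        rcases (mem_Z hq hk2).1 hmem with h | h
        · have h5 := (Nat.prime_dvd_prime_iff_eq hq hk.2.1).1 h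
          nlinarith
        · have h5 := (Nat.prime_dvd_prime_iff_eq hq hk.2.2).1 h
          have h6 : (N + 1) ^ 2 = N ^ 2 + 2 * N + 1 := by ring
          have h7 : k ≤ 2 * N := by omega
          have h8 : X ≤ N ^ 2 := by nlinarith
          omega
      obtain ⟨S, hSP, hScard, hSR⟩ := h3 X x3 X (ℕ × Bool) I (fun τ => Z τ.1) R (fun τ _ => sysZ τ.1) (by
        intro τ hτ
        rw [hI, mem_product, mem_Ico] at hτ
        rw [hR]
        simp only
        split_ifs
        · exact Subset.refl _
        · exact hBoth τ.1 hτ.1.1 hτ.1.2) (by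
        rw [hI, card_product, Nat.card_Ico, ← hXX, card_univ, Fintype.card_bool]
        have : X + X - X = X := by omega
        rw [this]
        nlinarith) m (by
        rw [hm]
        exact mul_le_mul_of_nonneg_right (le_max_left _ _) (by positivity)) hmX
      have hScard' := abs_le.1 hScard
      have hSle : (S.card : ℝ) ≤ 2 * m := by
        have h5 := mul_le_mul_of_nonneg_right e2 hm0.le
        linarith [hScard'.2]
      have hSge : m ≤ 2 * (S.card : ℝ) := by
        have h5 := mul_le_mul_of_nonneg_right e2 hm0.le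
        linarith [hScard'.1]
      refine ⟨S, by rw [← hXX]; exact hSP, ?_, ?_⟩
      · refine hSle.trans ?_
        rw [hm]
        have h5 : Real.log X ^ 3 ≤ (i : ℝ) ^ 3 := pow_le_pow_left₀ hlX.le hlXi 3
        have h6 := mul_le_mul_of_nonneg_left h5 (show 0 ≤ 2 * K by positivity)
        linarith
      · intro _ N hN1 hN2
        have hVN := hVlow X (by omega) (Z N) (sysZ N)
        have hVN0 : 0 ≤ VV (Z N) 0 X := VZ_nonneg (sysZ N) _ _
        constructor
        · have h5 := hSR (N, true) (by
            rw [hI, mem_product, mem_Ico]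
            exact ⟨⟨hN1, hN2⟩, mem_univ _⟩)
          have h6 : R (N, true) = IS t X X (X + X) (Z N) := by
            rw [hR]
            simp
          rw [h6] at h5
          rw [← hXX]
          have h7 := h1 X x1 (Z N) (sysZ N) X
          have h8 := (abs_le.1 h5).1
          have h9 : m * (c0 * VV (Z N) 0 X) ≤ m / X * ((IS t X X (X + X) (Z N)).card : ℝ) := by
            have h10 := mul_le_mul_of_nonneg_left h7 (show 0 ≤ m / X by positivity)
            refine le_trans (le_of_eq ?_) h10
            field_simp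
          have h11 := mul_le_mul_of_nonneg_right e1 (show 0 ≤ m * VV (Z N) 0 X by positivity)
          have h12 : c0 / 2 * (m * VV (Z N) 0 X) ≤ ((S ∩ IS t X X (X + X) (Z N)).card : ℝ) := by
            have h13 : m * (c0 * VV (Z N) 0 X) = c0 * (m * VV (Z N) 0 X) := by ring
            rw [h13] at h9
            linarith
          refine le_trans ?_ h12
          have h14 : m * (cV / Real.log X ^ 2) ≤ m * VV (Z N) 0 X := mul_le_mul_of_nonneg_left hVN hm0.le
          have h15 : m * (cV / Real.log X ^ 2) = K * cV * Real.log X := by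
            rw [hm]
            field_simp
          have h16 := mul_le_mul_of_nonneg_left h14 (show 0 ≤ c0 / 2 by positivity)
          rw [h15] at h16
          refine le_trans ?_ h16
          have h17 : Real.log N ≤ 2 * Real.log X := by
            have h18 : (N : ℝ) ≤ (X : ℝ) ^ 2 := by
              have : N ≤ X ^ 2 := by nlinarith
              exact_mod_cast this
            have hN0 : (0 : ℝ) < N := by exact_mod_cast (by omega : 0 < N)
            have h19 := Real.log_le_log hN0 h18
            rwa [Real.log_pow, Nat.cast_ofNat] at h19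
          have h18 : c0 / 2 * (K * cV * Real.log X) = K * (c0 * cV) / 2 * Real.log X := by ring
          rw [h18]
          have h19 : 2 * Real.log X ≤ K * (c0 * cV) / 2 * Real.log X := by
            apply mul_le_mul_of_nonneg_right _ hlX.le
            linarith
          linarith
        · have h5 := hSR (N, false) (by
            rw [hI, mem_product, mem_Ico]
            exact ⟨⟨hN1, hN2⟩, mem_univ _⟩)
          have h6 : R (N, false) = Both N X (2 ^ (i + 1)) := by
            rw [hR]
            simp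
          rw [h6] at h5
          simp only at h5
          rw [← dens_eq]
          set w : ℝ := ((Both N X (2 ^ (i + 1))).card : ℝ) with hw
          have hw0 : 0 ≤ w := Nat.cast_nonneg _
          have hwu : w ≤ Cu * (X * VV (Z N) 0 X) := by
            have h7 := hX₂ X x2 (Z N) (sysZ N) X (X + X) (by push_cast; linarith)
            have h8 : (((X + X : ℕ) : ℝ) - X) = X := by
              push_cast
              ring
            rw [h8] at h7
            refine le_trans ?_ h7
            rw [hw]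
            exact_mod_cast card_le_card (hBoth N hN1 hN2)
          have hX2 : ((2 : ℝ) ^ i) = X := by
            rw [hX]
            push_cast
            rfl
          rw [hX2]
          have h7 : |(S.card : ℝ) * (w / X) - m / X * w| ≤ ε1 * m * (Cu * VV (Z N) 0 X) := by
            have h8 : (S.card : ℝ) * (w / X) - m / X * w = ((S.card : ℝ) - m) * (w / X) := by
              field_simp
            rw [h8, abs_mul, abs_of_nonneg (show 0 ≤ w / X by positivity)]
            apply mul_le_mul hScard _ (by positivity) (by positivity)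
            rw [div_le_iff₀ hX0]
            linarith
          have h8 : |((S ∩ Both N X (2 ^ (i + 1))).card : ℝ) - S.card * (w / X)| ≤
              ε1 * (m * VV (Z N) 0 X) + ε1 * m * (Cu * VV (Z N) 0 X) := by
            have h9 : ((S ∩ Both N X (2 ^ (i + 1))).card : ℝ) - S.card * (w / X) =
              (((S ∩ Both N X (2 ^ (i + 1))).card : ℝ) - m / X * w) - ((S.card : ℝ) * (w / X) - m / X * w) := by ring
            rw [h9]
            refine (abs_sub _ _).trans (add_le_add h5 h7)
          refine h8.trans ?_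
          have h9 : ε1 * (m * VV (Z N) 0 X) + ε1 * m * (Cu * VV (Z N) 0 X) = ε1 * (1 + Cu) * (m * VV (Z N) 0 X) := by ring
          rw [h9]
          have h10 : m * VV (Z N) 0 X ≤ 2 * (S.card : ℝ) * VV (Z N) 0 X := mul_le_mul_of_nonneg_right hSge hVN0
          have h11 := mul_le_mul_of_nonneg_left h10 (show 0 ≤ ε1 * (1 + Cu) by positivity)
          have h12 := mul_le_mul_of_nonneg_right e3 (show 0 ≤ (S.card : ℝ) * VV (Z N) 0 X by positivity)
          refine h11.trans (le_trans (le_of_eq ?_) h12)
          ring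
    choose S hS hSc hSN using step
    have hl2 : 0 < Real.log 2 := Real.log_pos (by norm_num)
    refine ⟨4 * K / Real.log 2 ^ 4, {k | ∃ i, k ∈ S i}, by positivity, ?_, 2 ^ M, ?_⟩
    · intro x hx
      set L := Nat.log 2 x with hL
      have hL1 : 1 ≤ L := (Nat.le_log_iff_pow_le (by norm_num) (by omega)).2 (by simpa using hx)
      refine ⟨(range (L + 1)).biUnion S, ?_, ?_⟩
      · rintro k ⟨i, hi⟩ hkx
        rw [mem_biUnion]
        refine ⟨i, ?_, hi⟩
        rw [mem_range]
        have h5 := (mem_Ioc.1 (hS i hi)).1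
        have h6 : 2 ^ i ≤ x := by omega
        have h7 : i ≤ L := (Nat.le_log_iff_pow_le (by norm_num) (by omega)).2 h6
        omega
      · have h5 : (((range (L + 1)).biUnion S).card : ℝ) ≤ ∑ i ∈ range (L + 1), ((S i).card : ℝ) := by
          exact_mod_cast card_biUnion_le
        refine h5.trans ?_
        have h6 : ∑ i ∈ range (L + 1), ((S i).card : ℝ) ≤ ∑ _i ∈ range (L + 1), 2 * K * (L : ℝ) ^ 3 := by
          apply sum_le_sum
          intro i hi
          rw [mem_range] at hi
          refine (hSc i).trans ?_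
          apply mul_le_mul_of_nonneg_left _ (by positivity)
          apply pow_le_pow_left₀ (by positivity)
          exact_mod_cast (by omega : i ≤ L)
        refine h6.trans ?_
        rw [sum_const, card_range, nsmul_eq_mul]
        push_cast
        have hLr : (1 : ℝ) ≤ L := by exact_mod_cast hL1
        have h7 : (L : ℝ) * Real.log 2 ≤ Real.log x := by
          have h8 : 2 ^ L ≤ x := Nat.pow_log_le_self 2 (by omega)
          have h9 : ((2 : ℝ)) ^ L ≤ x := by exact_mod_cast h8
          have h10 := Real.log_le_log (by positivity) h9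
          rwa [Real.log_pow] at h10
        have h8 : (L : ℝ) ≤ Real.log x / Real.log 2 := by
          rw [le_div_iff₀ hl2]
          exact h7
        have h9 : (L : ℝ) ^ 4 ≤ (Real.log x / Real.log 2) ^ 4 := pow_le_pow_left₀ (by positivity) h8 4
        calc ((L : ℝ) + 1) * (2 * K * (L : ℝ) ^ 3) ≤ (2 * L) * (2 * K * (L : ℝ) ^ 3) := by
              apply mul_le_mul_of_nonneg_right _ (by positivity)
              linarith
          _ = 4 * K * (L : ℝ) ^ 4 := by ring
          _ ≤ 4 * K * (Real.log x / Real.log 2) ^ 4 := mul_le_mul_of_nonneg_left h9 (by positivity)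
          _ = _ := by rw [div_pow]; ring
    · intro N hN
      set i := Nat.log 2 N with hi
      have hN0 : N ≠ 0 := by
        have : 0 < 2 ^ M := by positivity
        omega
      have h5 : 2 ^ i ≤ N := Nat.pow_log_le_self 2 hN0
      have h6 : N < 2 ^ (i + 1) := Nat.lt_pow_succ_log_self (by norm_num) N
      have hMi : M ≤ i := (Nat.le_log_iff_pow_le (by norm_num) hN0).2 hN
      have hi4 : 4 ≤ i := le_trans (le_trans (le_max_right _ _) (le_max_right _ _)) hMi
      obtain ⟨h7, h8⟩ := hSN i hMi N h5 h6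
      have h2i : 2 ^ (i + 1) ≤ 2 * N := by
        rw [pow_succ]
        omega
      have h16 : 16 ≤ 2 ^ i := by
        calc 16 = 2 ^ 4 := by norm_num
          _ ≤ 2 ^ i := Nat.pow_le_pow_right (by norm_num) hi4
      refine ⟨S i, ?_, ?_, ?_, ?_⟩
      · intro k
        constructor
        · intro hk
          have := mem_Ioc.1 (hS i hk)
          exact ⟨⟨i, hk⟩, this⟩
        · rintro ⟨⟨j, hj⟩, h9, h10⟩
          have h11 := mem_Ioc.1 (hS j hj)
          have h12 : i = j := by
            by_contra hne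
            rcases Nat.lt_or_gt_of_ne hne with h | h
            · have : 2 ^ (i + 1) ≤ 2 ^ j := Nat.pow_le_pow_right (by norm_num) (by omega)
              omega
            · have : 2 ^ (j + 1) ≤ 2 ^ i := Nat.pow_le_pow_right (by norm_num) (by omega)
              omega
          rw [h12]
          exact hj
      · refine h7.trans ?_
        rw [free_eq (by nlinarith)]
        have : S i ∩ Free N (((2 ^ i : ℕ) : ℝ) ^ (1 / (t : ℝ))) (2 ^ i) (2 ^ (i + 1)) ⊆
            S i ∩ Free N (((2 ^ i : ℕ) : ℝ) ^ (1 / (t : ℝ))) 1 (2 * N) := by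
          apply inter_subset_inter_left
          intro k hk
          unfold Free at hk ⊢
          rw [mem_filter, mem_Ioc] at hk ⊢
          exact ⟨⟨by omega, by omega⟩, hk.2⟩
        exact_mod_cast card_le_card this
      · have h9 := hVlow (2 ^ i) (by omega) (Z N) (sysZ N)
        rw [dens_eq] at h9
        refine le_trans ?_ h9
        have hl : 0 < Real.log ((2 ^ i : ℕ) : ℝ) := Real.log_pos (by exact_mod_cast (by omega : 1 < 2 ^ i))
        have hlN : Real.log ((2 ^ i : ℕ) : ℝ) ≤ Real.log N := by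
          apply Real.log_le_log (by positivity)
          exact_mod_cast h5
        calc min (c0 * cV / 4) cV / Real.log N ^ 2 ≤ cV / Real.log N ^ 2 :=
              div_le_div_of_nonneg_right (min_le_right _ _) (by positivity)
          _ ≤ cV / Real.log ((2 ^ i : ℕ) : ℝ) ^ 2 := by
              apply div_le_div_of_nonneg_left hcV.le (by positivity)
              exact pow_le_pow_left₀ hl.le hlN 2
      · have h9 : S i ∩ Both N 1 (2 * N) = S i ∩ Both N (2 ^ i) (2 ^ (i + 1)) := by
          ext k
          rw [mem_inter, mem_inter]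
          constructor
          · rintro ⟨h10, h11⟩
            refine ⟨h10, ?_⟩
            unfold Both at h11 ⊢
            rw [mem_filter] at h11 ⊢
            exact ⟨hS i h10, h11.2⟩
          · rintro ⟨h10, h11⟩
            refine ⟨h10, ?_⟩
            have h12 := mem_Ioc.1 (hS i h10)
            unfold Both at h11 ⊢
            rw [mem_filter] at h11 ⊢
            exact ⟨mem_Ioc.2 ⟨by omega, by omega⟩, h11.2⟩
        rw [h9]
        exact h8

end Pool.Agent.Results.MP_e94e4b_nt.SymmetricAlmostPrimes
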